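import Pool.Agent.L0h32.CX.Stm

/-!
# MOV: the moves at home and in the tests preserve what is known
-/

set_option autoImplicit false

namespace Pool.Agent.L0h34.CX

open Relation
open Pool.Agent.L0h32.CX
open Pool.Agent.H630R2.LA (LimAut Sym fz Fr Cfg Step init initTape WS lrel bitS ix nr Ann keep
  finite_WS bit_ann)

variable {A : Type} {h : ℕ} {rel : A → Fin (2 ^ h) → Fin (2 ^ h) → Bool} {p0 : Fin (2 ^ h)}
  {facc : Fin (2 ^ h) → Bool} {w : List A} {t : ℕ}

lemma ix_val (i : ℕ) : (ix h i).val = i % 2 ^ h := rfl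

lemma ix_of_lt {i : ℕ} (hi : i < 2 ^ h) : ix h i = ⟨i, hi⟩ :=
  Fin.ext (Nat.mod_eq_of_lt hi)

/-- division with remainder -/
lemma dm (t B : ℕ) (hB : 0 < B) : t / B * B + t % B = t ∧ t % B < B :=
  ⟨by rw [Nat.mul_comm]; exact Nat.div_add_mod t B, Nat.mod_lt t hB⟩

lemma succ_div_mod {t B : ℕ} (h : t % B + 1 < B) : (t + 1) / B = t / B ∧ (t + 1) % B = t % B + 1 := by
  obtain ⟨h1, h2⟩ := dm t B (by omega)
  have h3 : t + 1 = (t % B + 1) + t / B * B := by omega
  constructor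
  · rw [h3, Nat.add_mul_div_right _ _ (by omega : 0 < B), Nat.div_eq_of_lt h, Nat.zero_add]
  · rw [h3, Nat.add_mul_mod_self_right, Nat.mod_eq_of_lt h]

lemma succ_div_mod' {t B : ℕ} (h : t % B + 1 = B) : (t + 1) / B * B = t + 1 ∧ (t + 1) % B = 0 := by
  obtain ⟨h1, h2⟩ := dm t B (by omega)
  have h3 : t + 1 = (t / B + 1) * B := by
    rw [Nat.add_mul, Nat.one_mul]
    omega
  have h4 : (t + 1) % B = 0 := by
    rw [h3]
    exact Nat.mul_mod_left _ _
  obtain ⟨h5, h6⟩ := dm (t + 1) B (by omega)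
  exact ⟨by omega, h4⟩

/-- a full set of reachable states -/
lemma full {s : ℕ} {Z : Finset (Fin (2 ^ h))} (hZ : ∀ q ∈ Z, nr h rel p0 w s q)
    (hc : Z.card = cN h rel p0 w s) (q : Fin (2 ^ h)) : q ∈ Z ↔ nr h rel p0 w s q := by
  classical
  refine ⟨hZ q, fun hq => ?_⟩
  have h1 : Z = Finset.univ.filter fun q : Fin (2 ^ h) => nr h rel p0 w s q := by
    apply Finset.eq_of_subset_of_card_le
    · intro q hq
      exact Finset.mem_filter.2 ⟨Finset.mem_univ _, hZ q hq⟩
    · rw [hc]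
      unfold cN
      exact le_of_eq (by congr)
  rw [h1]
  exact Finset.mem_filter.2 ⟨Finset.mem_univ _, hq⟩

lemma cn_full {s y : ℕ} (hy : y = 2 ^ h) :
    (by classical exact (Finset.univ.filter fun q : Fin (2 ^ h) =>
      q.val < y ∧ nr h rel p0 w s q).card : ℕ) = cN h rel p0 w s := by
  classical
  unfold cN
  congr 1
  ext q
  simp only [Finset.mem_filter, Finset.mem_univ, true_and]
  constructor
  · intro hq
    exact hq.2
  · intro hq
    exact ⟨by rw [hy]; exact q.isLt, hq⟩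

lemma E_first {m : Mem A} (hm : MOK h rel p0 facc w t m) (hf : m.first = true) :
    E h m = t + 1 ∧ t < 2 ^ h := by
  obtain ⟨h1, h2, -⟩ := hm
  rw [hf] at h1
  have h3 : t < 2 ^ h := of_decide_eq_true h1.symm
  refine ⟨?_, h3⟩
  unfold E
  rw [if_pos hf, h2, Nat.mod_eq_of_lt h3]
  omega

lemma E_not_first {m : Mem A} (hm : MOK h rel p0 facc w t m) (hf : m.first = false) :
    E h m = 2 ^ h + t % 2 ^ h + 1 ∧ 2 ^ h ≤ t := by
  obtain ⟨h1, h2, -⟩ := hm
  rw [hf] at h1
  have h3 : ¬ t < 2 ^ h := of_decide_eq_false h1.symm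
  refine ⟨?_, by omega⟩
  unfold E
  rw [hf, h2]
  simp

lemma E_le {m : Mem A} (hm : MOK h rel p0 facc w t m) : E h m ≤ t + 1 := by
  rcases Bool.eq_false_or_eq_true m.first with hf | hf
  · exact (E_first hm hf).1.le
  · obtain ⟨h1, h2⟩ := E_not_first hm hf
    obtain ⟨h3, h4⟩ := dm t (2 ^ h) (Nat.two_pow_pos h)
    have h5 : 1 ≤ t / 2 ^ h := (Nat.one_le_div_iff (Nat.two_pow_pos h)).2 h2
    have h6 : 1 * 2 ^ h ≤ t / 2 ^ h * 2 ^ h := Nat.mul_le_mul_right _ h5
    omega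

/-- the base of the tests -/
lemma base_eq {m : Mem A} (hm : MOK h rel p0 facc w t m) (hf : m.first = false) :
    ∃ j, t + 1 - E h m = j * 2 ^ h ∧ (j + 1) * 2 ^ h = t / 2 ^ h * 2 ^ h := by
  obtain ⟨h1, h2⟩ := E_not_first hm hf
  obtain ⟨h3, h4⟩ := dm t (2 ^ h) (Nat.two_pow_pos h)
  have h5 : 1 ≤ t / 2 ^ h := (Nat.one_le_div_iff (Nat.two_pow_pos h)).2 h2
  obtain ⟨j, hj⟩ : ∃ j, t / 2 ^ h = j + 1 := ⟨t / 2 ^ h - 1, by omega⟩
  have h6 : (j + 1) * 2 ^ h = j * 2 ^ h + 2 ^ h := by rw [Nat.add_mul, Nat.one_mul]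
  refine ⟨j, ?_, by rw [hj]⟩
  rw [hj] at h3
  omega

lemma job1 {m : Mem A} (hm : MOK h rel p0 facc w t m) (hj : m.job = 1) : m.first = false := by
  obtain ⟨-, -, -, -, -, -, hJ⟩ := hm
  rcases hJ with h1 | h1 | h1
  · omega
  · exact h1.2.2.1
  · omega

lemma Lt_le {m : Mem A} (hm : MOK h rel p0 facc w t m) : Lt h m + 1 ≤ E h m := by
  unfold Lt
  split_ifs with hj
  · have := (E_not_first hm (job1 hm hj)).1
    omega
  · have : 1 ≤ E h m := by
      unfold E
      omega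
    omega

/-- the state reached at the end of the test -/
lemma end_pos {m : Mem A} (hm : MOK h rel p0 facc w t m) :
    t + 1 - E h m + Lt h m = qpos h t m := by
  have hE := E_le hm
  have hL := Lt_le hm
  unfold Lt at hL ⊢
  unfold qpos
  split_ifs with hj
  · obtain ⟨j, h1, h2⟩ := base_eq hm (job1 hm hj)
    rw [h1, ← h2, Nat.add_mul, Nat.one_mul]
  · rw [if_neg hj] at hL
    omega

lemma yes_ok {m : Mem A} (hm : MOK h rel p0 facc w t m) (hz : m.z < 2 ^ h)
    (hr : nr h rel p0 w (qpos h t m) (ix h m.z)) : MOK h rel p0 facc w t (yes h rel facc m) := by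
  classical
  obtain ⟨h1, h2, h3, h4, h5, ⟨Z, hZ, hc, hf⟩, hJ⟩ := hm
  have hzv : (ix h m.z).val = m.z := by rw [ix_val, Nat.mod_eq_of_lt hz]
  refine ⟨h1, h2, h3, h4, hz, ⟨insert (ix h m.z) Z, ?_, ?_, ?_⟩, hJ⟩
  · intro q hq
    rcases Finset.mem_insert.1 hq with hq' | hq'
    · rw [hq']
      refine ⟨hr, ?_⟩
      show (ix h m.z).val < m.z + 1
      omega
    · obtain ⟨h6, h7⟩ := hZ q hq'
      refine ⟨h6, ?_⟩
      show q.val < m.z + 1
      omega
  · rw [Finset.card_insert_of_notMem, hc]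
    · rfl
    · intro hq
      have := (hZ _ hq).2
      omega
  · show (m.f || tst h rel facc m (ix h m.z)) = true ↔
      ∃ q ∈ insert (ix h m.z) Z, tst h rel facc m q = true
    rw [Bool.or_eq_true, hf]
    constructor
    · rintro (⟨q, hq, h6⟩ | h6)
      · exact ⟨q, Finset.mem_insert_of_mem hq, h6⟩
      · exact ⟨_, Finset.mem_insert_self _ _, h6⟩
    · rintro ⟨q, hq, h6⟩
      rcases Finset.mem_insert.1 hq with hq' | hq'
      · right
        rwa [← hq']
      · exact Or.inl ⟨q, hq', h6⟩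

lemma job0 {m : Mem A} (hJ : JobOK h rel p0 w t m) (hj : m.job = 0) :
    t < w.length ∧ m.a = w[t]? ∧ m.y ≤ 2 ^ h ∧
    m.cn = (by classical exact (Finset.univ.filter fun q : Fin (2 ^ h) =>
      q.val < m.y ∧ nr h rel p0 w (t + 1) q).card : ℕ) ∧
    (0 < m.y → (m.b0 = true ↔ nr h rel p0 w (t + 1) (ix h 0))) := by
  rcases hJ with h1 | h1 | h1
  · exact h1.2
  · omega
  · omega

lemma hop_ok {m m' : Mem A} (hm : MOK h rel p0 facc w t m) (hh : Hop h m m') :
    MOK h rel p0 facc w t m' := by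
  classical
  obtain ⟨h1, h2, h3, h4, h5, ⟨Z, hZ, hc, hf⟩, hJ⟩ := hm
  cases hh with
  | no hz =>
    exact ⟨h1, h2, h3, h4, hz, ⟨Z, fun q hq => ⟨(hZ q hq).1, Nat.lt_succ_of_lt (hZ q hq).2⟩, hc, hf⟩,
      hJ⟩
  | nexty hj hz hy hd =>
    obtain ⟨g1, g2, g3, g4, g5⟩ := job0 hJ hj
    have hq0 : qpos h t m = t := by
      unfold qpos
      rw [if_neg (by omega)]
    rw [hq0] at hZ
    have hfull := full (fun q hq => (hZ q hq).1) (hc.trans (hd.trans h3))
    have hfy : m.f = true ↔ nr h rel p0 w (t + 1) (ix h m.y) := by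
      rw [hf]
      constructor
      · rintro ⟨q, hq, h6⟩
        refine ⟨q, (hfull q).1 hq, ?_⟩
        unfold tst at h6
        rw [if_pos hj] at h6
        rw [g2] at h6
        obtain ⟨a, ha⟩ : ∃ a, w[t]? = some a := ⟨w[t], List.getElem?_eq_getElem g1⟩
        rw [ha] at h6
        exact ⟨a, ha, h6⟩
      · rintro ⟨q, hq, a, ha, h6⟩
        refine ⟨q, (hfull q).2 hq, ?_⟩
        unfold tst
        rw [if_pos hj, g2, ha]
        exact h6
    refine ⟨h1, h2, h3, h4, Nat.zero_le _, ⟨∅, by simp, rfl, by simp⟩, Or.inl ⟨hj, g1, g2, hy, ?_, ?_⟩⟩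
    · show m.cn + (if m.f = true then 1 else 0) =
        (Finset.univ.filter fun q : Fin (2 ^ h) => q.val < m.y + 1 ∧ nr h rel p0 w (t + 1) q).card
      rw [g4]
      by_cases hff : m.f = true
      · rw [if_pos hff]
        have h7 : (Finset.univ.filter fun q : Fin (2 ^ h) => q.val < m.y + 1 ∧
            nr h rel p0 w (t + 1) q) = insert (ix h m.y) (Finset.univ.filter
            fun q : Fin (2 ^ h) => q.val < m.y ∧ nr h rel p0 w (t + 1) q) := by
          ext q
          simp only [Finset.mem_filter, Finset.mem_univ, true_and, Finset.mem_insert]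
          constructor
          · rintro ⟨h8, h9⟩
            by_cases h10 : q.val = m.y
            · left
              apply Fin.ext
              rw [ix_val, Nat.mod_eq_of_lt hy, h10]
            · right
              exact ⟨by omega, h9⟩
          · rintro (h8 | h8)
            · rw [h8]
              refine ⟨?_, hfy.1 hff⟩
              rw [ix_val, Nat.mod_eq_of_lt hy]
              omega
            · exact ⟨by omega, h8.2⟩
        rw [h7, Finset.card_insert_of_notMem]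
        · intro h8
          have h9 := (Finset.mem_filter.1 h8).2.1
          rw [ix_val, Nat.mod_eq_of_lt hy] at h9
          omega
      · rw [if_neg hff, Nat.add_zero]
        congr 1
        ext q
        simp only [Finset.mem_filter, Finset.mem_univ, true_and]
        constructor
        · rintro ⟨h8, h9⟩
          exact ⟨by omega, h9⟩
        · rintro ⟨h8, h9⟩
          refine ⟨?_, h9⟩
          by_contra h10
          apply hff
          rw [hfy]
          have h11 : ix h m.y = q := by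
            apply Fin.ext
            rw [ix_val, Nat.mod_eq_of_lt hy]
            omega
          rw [h11]
          exact h9
    · intro _
      show (if m.y = 0 then m.f else m.b0) = true ↔ _
      by_cases hy0 : m.y = 0
      · rw [if_pos hy0, hfy, hy0]
      · rw [if_neg hy0]
        exact g5 (by omega)
  | bits hj hy hk hf' =>
    obtain ⟨g1, g2, g3, g4, g5⟩ := job0 hJ hj
    refine ⟨h1, h2, h3, h4, Nat.zero_le _, ⟨∅, by simp, rfl, by simp⟩,
      Or.inr (Or.inl ⟨rfl, g1, hf', hk, ?_⟩)⟩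
    show m.cn = _
    rw [g4]
    exact cn_full hy

lemma exit_ok {m : Mem A} {x : Wr} (hm : MOK h rel p0 facc w t m) (hx : Exit h p0 m x) :
    WOK h rel p0 w (t + 1) x ∧ t < w.length := by
  classical
  have hm' := hm
  obtain ⟨h1, h2, h3, h4, h5, ⟨Z, hZ, hc, hf⟩, hJ⟩ := hm
  obtain ⟨e1, e2⟩ := dm t (2 ^ h) (Nat.two_pow_pos h)
  cases hx with
  | new hj hy hk =>
    obtain ⟨g1, g2, g3, g4, g5⟩ := job0 hJ hj
    have hk' : t % 2 ^ h + 1 = 2 ^ h := by omega
    obtain ⟨e3, e4⟩ := succ_div_mod' hk'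
    have hcn : m.cn = cN h rel p0 w (t + 1) := by
      rw [g4]
      exact cn_full hy
    have hix : ix h (t + 1) = ix h 0 := by
      apply Fin.ext
      rw [ix_val, ix_val, e4, Nat.zero_mod]
    refine ⟨⟨?_, ?_, hcn, ?_, ?_⟩, g1⟩
    · show false = decide (t + 1 < 2 ^ h)
      rw [eq_comm, decide_eq_false_iff_not]
      have : t % 2 ^ h ≤ t := Nat.mod_le _ _
      omega
    · show 0 = (t + 1) % 2 ^ h
      rw [e4]
    · show m.cn = _
      rw [e3]
      exact hcn
    · show m.b0 = true ↔ _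
      rw [e3, hix]
      exact g5 (by rw [hy]; exact Nat.two_pow_pos h)
  | fst hj hy hk hf' =>
    obtain ⟨g1, g2, g3, g4, g5⟩ := job0 hJ hj
    obtain ⟨-, ht⟩ := E_first hm' hf'
    have hk' : t % 2 ^ h + 1 < 2 ^ h := by omega
    obtain ⟨e3, e4⟩ := succ_div_mod hk'
    have htm : t % 2 ^ h = t := Nat.mod_eq_of_lt ht
    have hcn : m.cn = cN h rel p0 w (t + 1) := by
      rw [g4]
      exact cn_full hy
    refine ⟨⟨?_, ?_, hcn, ?_, ?_⟩, g1⟩
    · show true = decide (t + 1 < 2 ^ h)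
      rw [eq_comm, decide_eq_true_eq]
      omega
    · show m.k + 1 = (t + 1) % 2 ^ h
      rw [e4, h2]
    · show m.cb = _
      rw [e3]
      exact h4
    · show decide (ix h (m.k + 1) = p0) = true ↔ _
      rw [decide_eq_true_eq, e3, Nat.div_eq_of_lt ht, Nat.zero_mul, h2, htm]
      rfl
  | bit hj hz hd =>
    have hq1 : qpos h t m = t / 2 ^ h * 2 ^ h := by
      unfold qpos
      rw [if_pos hj]
    rw [hq1] at hZ
    have hfull := full (fun q hq => (hZ q hq).1) (hc.trans (hd.trans h4))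
    rcases hJ with g | g | g
    · omega
    · obtain ⟨-, g1, g2, g3, g4⟩ := g
      have hk' : t % 2 ^ h + 1 < 2 ^ h := by omega
      obtain ⟨e3, e4⟩ := succ_div_mod hk'
      obtain ⟨-, ht⟩ := E_not_first hm' g2
      refine ⟨⟨?_, ?_, g4, ?_, ?_⟩, g1⟩
      · show false = decide (t + 1 < 2 ^ h)
        rw [eq_comm, decide_eq_false_iff_not]
        omega
      · show m.k + 1 = (t + 1) % 2 ^ h
        rw [e4, h2]
      · show m.cb = _
        rw [e3]
        exact h4
      · show m.f = true ↔ _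
        rw [hf, e3]
        constructor
        · rintro ⟨q, hq, h6⟩
          unfold tst at h6
          rw [if_neg (by omega), if_pos hj, decide_eq_true_eq] at h6
          have h7 : ix h (t + 1) = q := by
            apply Fin.ext
            rw [ix_val, e4, h6, h2]
          rw [h7]
          exact (hfull q).1 hq
        · intro hq
          refine ⟨_, (hfull _).2 hq, ?_⟩
          unfold tst
          rw [if_neg (by omega), if_pos hj, decide_eq_true_eq, ix_val, e4, h2]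
    · omega

lemma acc_ok {m : Mem A} (hm : MOK h rel p0 facc w t m) (ha : Acc h m) :
    t = w.length ∧ ¬ ∃ f, facc f = true ∧ nr h rel p0 w w.length f := by
  classical
  obtain ⟨h1, h2, h3, h4, h5, ⟨Z, hZ, hc, hf⟩, hJ⟩ := hm
  obtain ⟨hj, hz, hd, hff⟩ := ha
  have hq1 : qpos h t m = t := by
    unfold qpos
    rw [if_neg (by omega)]
  rw [hq1] at hZ
  have hfull := full (fun q hq => (hZ q hq).1) (hc.trans (hd.trans h3))
  have ht : t = w.length := by
    rcases hJ with g | g | g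
    · omega
    · omega
    · exact g.2
  refine ⟨ht, ?_⟩
  rintro ⟨q, hq, hq'⟩
  rw [← ht] at hq'
  have h6 : m.f = true := hf.2 ⟨q, (hfull q).2 hq', by
    unfold tst
    rw [if_neg (by omega), if_neg (by omega)]
    exact hq⟩
  rw [hff] at h6
  exact absurd h6 (by decide)

theorem t_MOV : S_MOV := by
  intro A h rel p0 facc w t τ htw hA s s' x x' b d hs hT hd1 hd2
  have hB := Nat.two_pow_pos h
  obtain ⟨σ, hσ⟩ : ∃ σ, σ = τ x := ⟨_, rfl⟩
  rw [← hσ] at hT ⊢
  cases hT with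
  | wrL x a => exact hs.elim
  | wrR x => exact hs.elim
  | hop m m' _ hh =>
    obtain ⟨hm, hx⟩ := hs
    have := hd1 rfl
    exact ⟨rfl, by omega, Or.inr (Or.inr ⟨by omega, hop_ok hm hh, by omega⟩)⟩
  | back m _ =>
    obtain ⟨hm, hx⟩ := hs
    have := hd2 rfl
    exact ⟨rfl, by omega, Or.inr (Or.inr ⟨by omega, hm, by omega⟩)⟩
  | ask m _ hz =>
    obtain ⟨hm, hx⟩ := hs
    have := hd1 rfl
    exact ⟨rfl, by omega, Or.inr (Or.inr ⟨by omega, hm, hz, le_rfl, by omega⟩)⟩
  | aL m i _ =>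
    obtain ⟨hm, hz, hi, hx⟩ := hs
    have := hd2 rfl
    exact ⟨rfl, by omega, Or.inr (Or.inr ⟨by omega, hm, hz, by omega, by omega⟩)⟩
  | aF m _ hf =>
    obtain ⟨hm, hz, hi, hx⟩ := hs
    have := hd2 rfl
    refine ⟨rfl, by omega, Or.inr (Or.inr ⟨by omega, hm, hz, by omega, by omega, ?_⟩)⟩
    rw [(E_first hm hf).1, Nat.sub_self]
    rfl
  | aC m i _ hf hi hb =>
    obtain ⟨hm, hz, hi', hx⟩ := hs
    have := hd2 rfl
    refine ⟨rfl, by omega, Or.inr (Or.inr ⟨by omega, hm, hz, by omega, by omega, ?_⟩)⟩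
    obtain ⟨j, h1, h2⟩ := base_eq hm hf
    have hE := E_le hm
    obtain ⟨e1, e2⟩ := dm t (2 ^ h) hB
    have h3 : (j + 1) * 2 ^ h = j * 2 ^ h + 2 ^ h := by rw [Nat.add_mul, Nat.one_mul]
    have h4 : x = j * 2 ^ h + 1 + i := by omega
    rw [hσ, h4] at hb
    rw [h1, ix_of_lt hi]
    refine (bit_ann hA j ⟨i, hi⟩ ?_).1 hb
    show j * 2 ^ h + i < min (t + 1) w.length
    rw [lt_min_iff]
    omega
  | bL m p i _ =>
    obtain ⟨hm, hz, hi, hx, hr⟩ := hs
    have := hd2 rfl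
    exact ⟨rfl, by omega, Or.inr (Or.inr ⟨by omega, hm, hz, by omega, by omega, hr⟩)⟩
  | b0 m p _ =>
    obtain ⟨hm, hz, hi, hx, hr⟩ := hs
    have := hd1 rfl
    exact ⟨rfl, by omega, Or.inr (Or.inr ⟨by omega, hm, hz, le_rfl, by omega, by omega, hr⟩)⟩
  | cS m p p' i _ hi hl =>
    obtain ⟨hm, hz, hi1, hi2, hx, hr⟩ := hs
    have := hd1 rfl
    have hE := E_le hm
    have hL := Lt_le hm
    refine ⟨rfl, by omega, Or.inr (Or.inr ⟨by omega, hm, hz, by omega, by omega, by omega, ?_⟩)⟩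
    have h1 : t + 1 - E h m + (i + 2 - 1) = t + 1 - E h m + (i + 1 - 1) + 1 := by omega
    rw [h1]
    have h2 : x = t + 1 - E h m + (i + 1 - 1) + 1 := by omega
    obtain ⟨a, b, ha, hτ, -⟩ := hA.2 (t + 1 - E h m + (i + 1 - 1)) (by
      rw [lt_min_iff]
      omega)
    rw [hσ, h2, hτ] at hl
    exact ⟨p, hr, a, ha, hl⟩
  | cD m p i _ hi hp hE =>
    obtain ⟨hm, hz, hi1, hi2, hx, hr⟩ := hs
    have := hd2 rfl
    refine ⟨rfl, by omega, Or.inr (Or.inr ⟨by omega, yes_ok hm hz ?_, by omega⟩)⟩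
    have h1 := end_pos hm
    rw [← h1, ← hp, ← hi]
    exact hr
  | cR m p i _ hi hp hE =>
    obtain ⟨hm, hz, hi1, hi2, hx, hr⟩ := hs
    have := hd1 rfl
    refine ⟨rfl, by omega, Or.inr (Or.inr ⟨by omega, hm, hz, by omega, by omega, ?_⟩)⟩
    have h1 := end_pos hm
    rw [← h1, ← hp, ← hi]
    exact hr
  | rS m i _ hi =>
    obtain ⟨hm, hz, hi', hx, hr⟩ := hs
    have := hd1 rfl
    exact ⟨rfl, by omega, Or.inr (Or.inr ⟨by omega, hm, hz, by omega, by omega, hr⟩)⟩
  | rE m i _ hi =>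
    obtain ⟨hm, hz, hi', hx, hr⟩ := hs
    have := hd2 rfl
    exact ⟨rfl, by omega, Or.inr (Or.inr ⟨by omega, yes_ok hm hz hr, by omega⟩)⟩
  | exi m x _ hx =>
    obtain ⟨hm, hx'⟩ := hs
    have := hd1 rfl
    obtain ⟨h1, h2⟩ := exit_ok hm hx
    exact ⟨rfl, by omega, Or.inr (Or.inr ⟨by omega, h1, h2, by omega⟩)⟩
  | wrt x'' _ =>
    obtain ⟨h1, h2, h3⟩ := hs
    have := hd1 rfl
    exact ⟨rfl, by omega, Or.inr (Or.inl ⟨x'', rfl, rfl, by omega, h3, h1, h2⟩)⟩
  | acc m _ ha =>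
    obtain ⟨hm, hx'⟩ := hs
    have := hd1 rfl
    obtain ⟨h1, h2⟩ := acc_ok hm ha
    exact ⟨rfl, by omega, Or.inr (Or.inr ⟨by omega, by omega, h1, h2⟩)⟩
  | fin _ =>
    obtain ⟨h1, h2, h3⟩ := hs
    have := hd1 rfl
    exact ⟨rfl, by omega, Or.inr (Or.inr ⟨by omega, h3⟩)⟩

end Pool.Agent.L0h34.CX
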